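import Pool.Agent.Lib.MP_1dedaf_gt.Mg.G024
import Pool.Agent.Lib.MP_1dedaf_gt.Mg.G013
import Pool.Agent.Lib.MP_1dedaf_gt.DK.N0
import Pool.Agent.Lib.MP_1dedaf_gt.Mg.G019

/-!
# TASK DC CT: continuity of the kernels in the polygon and the tilt

Proof. `dat_tendsto` (N3) with `Ks j = sv n (ks j) (ξs j) s`, `K = sv n k ξ s`: `p`, `q` are continuous in the tilt; `w = sx` is a fixed affine function of the support numbers (finitely many values `ks j i → k i`); for `xs → x` and a subsequence `φ` the values `ln n (ks (φ j)) s i (xs j) → ln n k s i x` for every `i`, and a finite supremum / infimum of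
convergent sequences converges (induction on the finite type, or `Finset.sup'`, or: `⨆ i : Fin h, f i` as a continuous function on `Fin h → ℝ`: `Continuous` of the finite sup, see how `sv_l_cont` in B4 or `jcont` in N3 does it). `jj`: `xs j = sx n (ks j) s m → sx n k s m`. `ff`: `Phi x = j x 0 - j x 1` by `j_step` (needs `q ≠ 0`; eventually `q_j ≠ 0`), and
`dat_tendsto` for the slopes `0` and `1`.
-/

set_option autoImplicit false

open MeasureTheory Set Filter Topology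

namespace Pool.Agent.Lib.MP_1dedaf_gt.DK

open Pool.Agent.Lib.MP_1dedaf_gt.LB

private theorem CT_ln {n : ℕ} {ks : ℕ → ZMod n → ℝ} {k : ZMod n → ℝ} (h2 : Tendsto ks atTop (𝓝 k))
    (s : ZMod n) (i : ℕ) {φ : ℕ → ℕ} (hφ : StrictMono φ) {xs : ℕ → ℝ} {x : ℝ}
    (hx : Tendsto xs atTop (𝓝 x)) :
    Tendsto (fun j => ln n (ks (φ j)) s i (xs j)) atTop (𝓝 (ln n k s i x)) := by
  have h3 := tendsto_pi_nhds.mp h2
  have h4 : ∀ r, Tendsto (fun j => ks (φ j) r) atTop (𝓝 (k r)) :=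
    fun r => (h3 r).comp hφ.tendsto_atTop
  exact ((((h4 s).sub hx).mul tendsto_const_nhds).sub (h4 _)).div_const _

private theorem CT_ver {n : ℕ} {ks : ℕ → ZMod n → ℝ} {k : ZMod n → ℝ} (h2 : Tendsto ks atTop (𝓝 k))
    (s : ZMod n) : Tendsto (fun j => ver n (ks j) s) atTop (𝓝 (ver n k s)) := by
  have h3 := tendsto_pi_nhds.mp h2
  have h4 : Tendsto (fun j => hi n (ks j) s) atTop (𝓝 (hi n k s)) :=
    ((h3 _).sub ((h3 _).mul tendsto_const_nhds)).div_const _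
  exact ((h3 s).smul tendsto_const_nhds).add (h4.smul tendsto_const_nhds)

private theorem CT_sx {n : ℕ} {ks : ℕ → ZMod n → ℝ} {k : ZMod n → ℝ} (h2 : Tendsto ks atTop (𝓝 k))
    (s : ZMod n) (m : ℕ) : Tendsto (fun j => sx n (ks j) s m) atTop (𝓝 (sx n k s m)) := by
  have h3 := tendsto_pi_nhds.mp h2
  exact (h3 s).sub ((CT_ver h2 _).inner tendsto_const_nhds)

private theorem CT_main (n : ℕ) [NeZero n] (hn : Odd n) (h3 : 3 ≤ n) {ks : ℕ → ZMod n → ℝ} {ξs : ℕ → E2} {k : ZMod n → ℝ} {ξ : E2}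
    (h1 : Tendsto ks atTop (𝓝 k)) (h2 : Tendsto ξs atTop (𝓝 ξ)) (s : ZMod n) (m : ℕ) (hR : (sv n k ξ s).Reg) (c : ℝ) :
    Tendsto (fun j => (sv n (ks j) (ξs j) s).j (sx n (ks j) s m) c) atTop
      (𝓝 ((sv n k ξ s).j (sx n k s m) c)) := by
  have hh : 0 < (n - 1) / 2 := by omega
  have : Nonempty (Fin ((n - 1) / 2)) := ⟨⟨0, hh⟩⟩
  refine dat_tendsto (fun j => sv n (ks j) (ξs j) s) (sv n k ξ s)
    hR (fun j => ⟨(sv_l_cont n hn h3 _ _ s).1, (sv_u_cont n hn h3 _ _ s).1⟩)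
    ?_ ?_ ?_ ?_ ?_ (fun j => sx n (ks j) s m) (sx n k s m) (CT_sx h1 s m) c
  · exact (h2.inner tendsto_const_nhds).neg
  · exact (h2.inner tendsto_const_nhds).neg
  · exact CT_sx h1 s _
  · intro xs x φ hφ hx
    show Tendsto (fun j => ⨆ i : Fin ((n - 1) / 2), ln n (ks (φ j)) s (i.val + 1) (xs j)) atTop
      (𝓝 (⨆ i : Fin ((n - 1) / 2), ln n k s (i.val + 1) x))
    simp only [← Finset.sup'_univ_eq_ciSup]
    exact Tendsto.finset_sup'_nhds_apply _ fun i _ => CT_ln h1 s _ hφ hx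
  · intro xs x φ hφ hx
    show Tendsto (fun j => ⨅ i : Fin ((n - 1) / 2), ln n (ks (φ j)) s ((n - 1) / 2 + 1 + i.val) (xs j)) atTop
      (𝓝 (⨅ i : Fin ((n - 1) / 2), ln n k s ((n - 1) / 2 + 1 + i.val) x))
    simp only [← Finset.inf'_univ_eq_ciInf]
    exact Tendsto.finset_inf'_nhds_apply _ fun i _ => CT_ln h1 s _ hφ hx

theorem jj_tendsto (n : ℕ) [NeZero n] (hn : Odd n) (h3 : 3 ≤ n) {ks : ℕ → ZMod n → ℝ} {ξs : ℕ → E2} {k : ZMod n → ℝ} {ξ : E2}
    (h1 : Tendsto ks atTop (𝓝 k)) (h2 : Tendsto ξs atTop (𝓝 ξ)) (s : ZMod n) (m : ℕ) (hR : (sv n k ξ s).Reg) :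
    Tendsto (fun j => jj n (ks j) (ξs j) s m) atTop (𝓝 (jj n k ξ s m)) ∧
    Tendsto (fun j => ff n (ks j) (ξs j) s m) atTop (𝓝 (ff n k ξ s m)) := by
  refine ⟨CT_main n hn h3 h1 h2 s m hR (slk n m), ?_⟩
  have ha := CT_main n hn h3 h1 h2 s m hR 0
  have hb := CT_main n hn h3 h1 h2 s m hR 1
  have hq : Tendsto (fun j => (sv n (ks j) (ξs j) s).q) atTop (𝓝 (sv n k ξ s).q) :=
    (h2.inner tendsto_const_nhds).neg
  have hne : ∀ᶠ j in atTop, (sv n (ks j) (ξs j) s).q ≠ 0 := hq.eventually_ne hR.hq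
  have e0 : ff n k ξ s m = (sv n k ξ s).j (sx n k s m) 0 - (sv n k ξ s).j (sx n k s m) 1 := by
    rw [j_step _ hR.hq _ 0 1]
    unfold ff
    ring
  rw [e0]
  refine (ha.sub hb).congr' ?_
  filter_upwards [hne] with j hj
  rw [j_step _ hj _ 0 1]
  unfold ff
  ring

end Pool.Agent.Lib.MP_1dedaf_gt.DK
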