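import Pool.Agent.Lib.MP_1dedaf_gt.Mg.G024
import Pool.Agent.Lib.MP_1dedaf_gt.Mg.G012
import Pool.Agent.Lib.MP_1dedaf_gt.LB.A5
import Pool.Agent.Lib.MP_1dedaf_gt.Mg.G009
import Pool.Agent.Lib.MP_1dedaf_gt.Mg.G007
import Pool.Agent.Lib.MP_1dedaf_gt.Mg.G004

/-!
# TASK DC OF: every polygon with positive edges and every tilt come from an optimal pair

Proof. `dir_adm n hn h3 : Adm (dir n)` (LB library; used in N2, see its import). `T i := sg (dir n) k ξ i / Z (dir n) k ξ`. `fac (dir n) k i = Icc (lo n k i) (hi n k i)` (`facets_of_len`, LB/C1a), so `sg` is the integral of a positive continuous function over an interval of positive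
length: `sg > 0`; `Z > 0` (open nonempty subset: `Z_pos` of the LB library if it exists, otherwise from `sg_sum`-free direct argument: `Q` has nonempty interior because it is `Fat`, is compact, the integrand is positive and continuous; see how `sg_pos` in B2 gets `0 < Z`).
`th (dir n) T = (1/Z) ∑ sg i • dir i = ξ` (`sg_sum`, LB/A5). `c := (1/Z) • ∫_{Q k} exp <ξ, x> • x`. `Q (dir n) (fun i => k i - <c, dir i>) = (Q (dir n) k) - c` (`x ∈ Q k' ↔ x + c ∈ Q k`), so with the translation invariance of the Lebesgue measure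
`Z k' ξ = exp (- <ξ, c>) Z k ξ`, `∫_{Q k'} exp <ξ, x> • x = exp (- <ξ,c>) ∫_{Q k} exp <ξ, x> • (x - c) = 0`, and the edge `i` of `k'` is the edge of `k` moved by `- c`: `fac k' i = {τ | τ + <c, rot (dir i)> ∈ fac k i}` (`c = <c, dir i> • dir i + <c, rot (dir i)> • rot (dir i)`), so
`sg k' ξ i = exp (- <ξ,c>) sg k ξ i` (substitution `τ ↦ τ + <c, rot (dir i)>`). `Fat` of `k'`: move the point.
-/

set_option autoImplicit false

open MeasureTheory Set Filter Topology

namespace Pool.Agent.Lib.MP_1dedaf_gt.DK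

open Pool.Agent.Lib.MP_1dedaf_gt.LB

private theorem OF_mem {ι : Type} (u : ι → E2) (k : ι → ℝ) (c x : E2) :
    x ∈ Q u (fun i => k i - inner ℝ c (u i)) ↔ x + c ∈ Q u k := by
  unfold Q
  simp only [Set.mem_setOf_eq, inner_add_left]
  constructor
  · intro h i
    have := h i
    linarith
  · intro h i
    have := h i
    linarith

private theorem OF_int {ι : Type} [Fintype ι] {u : ι → E2} (hu : Adm u) (k : ι → ℝ) (c : E2) {E : Type}
    [NormedAddCommGroup E] [NormedSpace ℝ E] (F : E2 → E) :
    ∫ x in Q u (fun i => k i - inner ℝ c (u i)), F x = ∫ x in Q u k, F (x - c) := by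
  have hm1 : MeasurableSet (Q u (fun i => k i - inner ℝ c (u i))) := (Q_compact hu _).measurableSet
  have hm2 : MeasurableSet (Q u k) := (Q_compact hu _).measurableSet
  rw [← integral_indicator hm1, ← integral_indicator hm2]
  have h1 : ∀ x, (Q u k).indicator (fun x => F (x - c)) (x + c) =
      (Q u (fun i => k i - inner ℝ c (u i))).indicator F x := by
    intro x
    by_cases h : x + c ∈ Q u k
    · rw [Set.indicator_of_mem h, Set.indicator_of_mem ((OF_mem u k c x).2 h)]
      simp
    · rw [Set.indicator_of_notMem h, Set.indicator_of_notMem (fun h' => h ((OF_mem u k c x).1 h'))]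
  rw [← integral_add_right_eq_self (μ := (volume : Measure E2)) ((Q u k).indicator (fun x => F (x - c))) c]
  exact integral_congr_ae (Filter.Eventually.of_forall fun x => (h1 x).symm)

private theorem OF_frame (u c : E2) (hu : ‖u‖ = 1) : c = inner ℝ c u • u + inner ℝ c (rot u) • rot u := by
  have h1 : u 0 ^ 2 + u 1 ^ 2 = 1 := by
    have h := EuclideanSpace.real_norm_sq_eq u
    rw [Fin.sum_univ_two, hu] at h
    linarith
  ext i
  simp only [PiLp.inner_apply, rot, Fin.sum_univ_two, RCLike.inner_apply, conj_trivial]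
  fin_cases i
  · simp
    linear_combination (-(c 0)) * h1
  · simp
    linear_combination (-(c 1)) * h1

private theorem OF_line (u c : E2) (hu : ‖u‖ = 1) (a τ : ℝ) :
    (a - inner ℝ c u) • u + τ • rot u = (a • u + (τ + inner ℝ c (rot u)) • rot u) - c := by
  have h := OF_frame u c hu
  have h2 : (a • u + (τ + inner ℝ c (rot u)) • rot u) - (inner ℝ c u • u + inner ℝ c (rot u) • rot u) =
      (a - inner ℝ c u) • u + τ • rot u := by
    module
  rw [← h2, ← h]

private theorem OF_sg {ι : Type} [Fintype ι] {u : ι → E2} (hu : Adm u) (k : ι → ℝ) (ξ c : E2) (i : ι)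
    (hm : MeasurableSet (fac u k i)) (hm' : MeasurableSet (fac u (fun i => k i - inner ℝ c (u i)) i)) :
    sg u (fun i => k i - inner ℝ c (u i)) ξ i = Real.exp (-inner ℝ ξ c) * sg u k ξ i := by
  unfold sg
  have hfac : ∀ τ : ℝ, τ ∈ fac u (fun i => k i - inner ℝ c (u i)) i ↔ τ + inner ℝ c (rot (u i)) ∈ fac u k i := by
    intro τ
    unfold fac
    simp only [Set.mem_setOf_eq]
    rw [OF_mem, OF_line (u i) c (hu.unit i), sub_add_cancel]
  rw [← integral_indicator hm, ← integral_indicator hm', ← integral_const_mul]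
  rw [← integral_add_right_eq_self (μ := (volume : Measure ℝ)) (fun τ => Real.exp (-inner ℝ ξ c) *
    (fac u k i).indicator (fun τ => Real.exp (inner ℝ ξ (k i • u i + τ • rot (u i)))) τ) (inner ℝ c (rot (u i)))]
  refine integral_congr_ae (Filter.Eventually.of_forall fun τ => ?_)
  by_cases h : τ + inner ℝ c (rot (u i)) ∈ fac u k i
  · simp only [Set.indicator_of_mem h, Set.indicator_of_mem ((hfac τ).2 h)]
    rw [OF_line (u i) c (hu.unit i), inner_sub_right, ← Real.exp_add]
    congr 1
    ring
  · simp only [Set.indicator_of_notMem h, Set.indicator_of_notMem (fun h' => h ((hfac τ).1 h')), mul_zero]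

private theorem OF_fac_meas {ι : Type} [Fintype ι] (u : ι → E2) (k : ι → ℝ) (i : ι) : MeasurableSet (fac u k i) := by
  have h1 : fac u k i = ⋂ j, {τ : ℝ | inner ℝ (k i • u i + τ • rot (u i)) (u j) ≤ k j} := by
    ext τ
    simp [fac, Q]
  rw [h1]
  refine (isClosed_iInter fun j => ?_).measurableSet
  refine isClosed_le ?_ continuous_const
  fun_prop

theorem opt_of (n : ℕ) [NeZero n] (hn : Odd n) (h3 : 3 ≤ n) {k : ZMod n → ℝ} (hk : Gp n k) (ξ : E2) :
    ∃ (T : ZMod n → ℝ) (c : E2), (∀ i, 0 < T i) ∧ th (dir n) T = ξ ∧ Opt (dir n) T (fun i => k i - inner ℝ c (dir n i)) := by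
  have hu := dir_adm n hn h3
  have hZ : 0 < Z (dir n) k ξ := Z_pos hu hk.fat ξ
  have hsg : ∀ i, 0 < sg (dir n) k ξ i := by
    intro i
    unfold sg
    rw [facets_of_len n hn h3 (fun i => (hk.len i).le) i, integral_Icc_eq_integral_Ioc,
      ← intervalIntegral.integral_of_le (hk.len i).le]
    refine intervalIntegral.intervalIntegral_pos_of_pos ?_ (fun x => Real.exp_pos _) (hk.len i)
    refine Continuous.intervalIntegrable ?_ _ _
    fun_prop
  have hth : th (dir n) (fun i => sg (dir n) k ξ i / Z (dir n) k ξ) = ξ := by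
    unfold th
    have h1 : ∀ i, (sg (dir n) k ξ i / Z (dir n) k ξ) • dir n i = (Z (dir n) k ξ)⁻¹ • (sg (dir n) k ξ i • dir n i) := by
      intro i
      rw [smul_smul, div_eq_inv_mul]
    simp only [h1]
    rw [← Finset.smul_sum, sg_sum hu hk.fat ξ, smul_smul, inv_mul_cancel₀ hZ.ne', one_smul]
  set c : E2 := (Z (dir n) k ξ)⁻¹ • ∫ x in Q (dir n) k, Real.exp (inner ℝ ξ x) • x with hc
  have hcZ : Z (dir n) k ξ • c = ∫ x in Q (dir n) k, Real.exp (inner ℝ ξ x) • x := by
    rw [hc, smul_smul, mul_inv_cancel₀ hZ.ne', one_smul]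
  have hZ' : Z (dir n) (fun i => k i - inner ℝ c (dir n i)) ξ = Real.exp (-inner ℝ ξ c) * Z (dir n) k ξ := by
    unfold Z
    rw [OF_int hu k c (fun x => Real.exp (inner ℝ ξ x)), ← integral_const_mul]
    refine integral_congr_ae (Filter.Eventually.of_forall fun x => ?_)
    simp only
    rw [inner_sub_right, ← Real.exp_add]
    congr 1
    ring
  refine ⟨fun i => sg (dir n) k ξ i / Z (dir n) k ξ, c, fun i => div_pos (hsg i) hZ, hth, ?_, ?_, ?_⟩
  · obtain ⟨x, hx⟩ := hk.fat
    refine ⟨x - c, fun i => ?_⟩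
    rw [inner_sub_left]
    have := hx i
    linarith
  · intro i
    rw [hth, hZ', OF_sg hu k ξ c i (OF_fac_meas _ _ _) (OF_fac_meas _ _ _)]
    have := hZ.ne'
    field_simp
  · rw [hth, OF_int hu k c (fun x => Real.exp (inner ℝ ξ x) • x)]
    have hcont1 : Continuous fun x : E2 => Real.exp (inner ℝ ξ x) • x := by fun_prop
    have hint1 : IntegrableOn (fun x : E2 => Real.exp (inner ℝ ξ x) • x) (Q (dir n) k) :=
      hcont1.continuousOn.integrableOn_compact (Q_compact hu k)
    have hint2 : IntegrableOn (fun x : E2 => Real.exp (inner ℝ ξ x) • c) (Q (dir n) k) := by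
      have hcont2 : Continuous fun x : E2 => Real.exp (inner ℝ ξ x) • c := by fun_prop
      exact hcont2.continuousOn.integrableOn_compact (Q_compact hu k)
    have h1 : ∀ x : E2, Real.exp (inner ℝ ξ (x - c)) • (x - c) =
        Real.exp (-inner ℝ ξ c) • (Real.exp (inner ℝ ξ x) • x - Real.exp (inner ℝ ξ x) • c) := by
      intro x
      rw [← smul_sub, smul_smul, inner_sub_right, ← Real.exp_add]
      congr 2
      ring
    simp only [h1]
    rw [integral_smul, integral_sub hint1 hint2, integral_smul_const, ← hcZ]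
    have h2 : ∫ x in Q (dir n) k, Real.exp (inner ℝ ξ x) = Z (dir n) k ξ := rfl
    rw [h2, sub_self, smul_zero]

end Pool.Agent.Lib.MP_1dedaf_gt.DK
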