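import Pool.Agent.Lib.MP_1dedaf_gt.Mg.G024
import Pool.Agent.Lib.MP_1dedaf_gt.Mg.G004
import Pool.Agent.Lib.MP_1dedaf_gt.Mg.G012
import Pool.Agent.Lib.MP_1dedaf_gt.DK.N0

/-!
# TASK DC TR: translation invariance

`k' i = k i - <c, dir i>`. Proof. `lo n k' i = lo n k i - <c, rot (dir i)>`, `hi n k' i = hi n k i - <c, rot (dir i)>` (with `dir (i+1) = cos dl • dir i + sin dl • rot (dir i)`), so `ver n k' i = ver n k i - c` and `sx n k' s j = sx n k s j`.
`ln n k' s j x = ((k s - x) cos - k (s+j) - (<c, dir s> cos (j dl) - <c, dir (s+j)>)) / sin = ln n k s j x + <c, rot (dir s)>` when `sin (j dl) ≠ 0`, because `dir (s + j) = cos (j dl) • dir s + sin (j dl) • rot (dir s)`; `sin (j dl) ≠ 0` for `1 ≤ j ≤ n - 1` (`sin_lo`, `sin_up`).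
So `(sv n k' ξ s) = (sv n k ξ s).shr 0 (- <c, rot (dir s)>)` (`l` and `u` are suprema / infima over nonempty finite types of functions moved by a constant: `ciSup_add`, `ciInf_add`), `j_shr`, `Phi_shr`; for `k ≠ 0` use `j_step` for both sides (`j x k = j x 0 - k Phi x`).
`lo_tr`, `sv_l_tr` are for later use.
-/

set_option autoImplicit false

open MeasureTheory Set Filter Topology

namespace Pool.Agent.Lib.MP_1dedaf_gt.DK

open Pool.Agent.Lib.MP_1dedaf_gt.LB

private theorem TR_decomp (u c : E2) (hu : ‖u‖ = 1) :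
    c = inner ℝ c u • u + inner ℝ c (rot u) • rot u := by
  have h1 : u 0 ^ 2 + u 1 ^ 2 = 1 := by
    have h := EuclideanSpace.real_norm_sq_eq u
    rw [Fin.sum_univ_two, hu] at h
    linarith
  ext i
  fin_cases i
  · simp only [PiLp.inner_apply, rot, Fin.sum_univ_two, RCLike.inner_apply, conj_trivial]
    simp
    linear_combination (-(c 0)) * h1
  · simp only [PiLp.inner_apply, rot, Fin.sum_univ_two, RCLike.inner_apply, conj_trivial]
    simp
    linear_combination (-(c 1)) * h1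

private theorem TR_dir (n : ℕ) [NeZero n] (s : ZMod n) (j : ℕ) (c : E2) :
    inner ℝ c (dir n (s + j)) =
      Real.cos (j * dl n) * inner ℝ c (dir n s) + Real.sin (j * dl n) * inner ℝ c (rot (dir n s)) := by
  obtain ⟨h1, h2, _⟩ := dir_inner n s j
  have h := TR_decomp (dir n s) (dir n (s + j)) (dir_norm n s)
  rw [h1, h2] at h
  rw [h, inner_add_right, real_inner_smul_right, real_inner_smul_right]

private theorem TR_hi (n : ℕ) [NeZero n] (hn : Odd n) (h3 : 3 ≤ n) (k : ZMod n → ℝ) (c : E2) (i : ZMod n) :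
    hi n (fun i => k i - inner ℝ c (dir n i)) i = hi n k i - inner ℝ c (rot (dir n i)) := by
  have hs : 0 < Real.sin (((0 + 1 : ℕ) : ℝ) * dl n) := sin_lo n hn h3 0 (by omega)
  simp only [zero_add, Nat.cast_one, one_mul] at hs
  have h := TR_dir n i 1 c
  simp only [Nat.cast_one, one_mul] at h
  unfold hi
  simp only [h]
  field_simp
  ring

private theorem TR_ver (n : ℕ) [NeZero n] (hn : Odd n) (h3 : 3 ≤ n) (k : ZMod n → ℝ) (c : E2) (i : ZMod n) :
    ver n (fun i => k i - inner ℝ c (dir n i)) i = ver n k i - c := by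
  unfold ver
  rw [TR_hi n hn h3 k c i]
  nth_rewrite 3 [TR_decomp (dir n i) c (dir_norm n i)]
  module

private theorem TR_ln (n : ℕ) [NeZero n] (k : ZMod n → ℝ) (c : E2) (s : ZMod n) (j : ℕ) (x : ℝ)
    (hs : Real.sin (j * dl n) ≠ 0) :
    ln n (fun i => k i - inner ℝ c (dir n i)) s j x = ln n k s j x + inner ℝ c (rot (dir n s)) := by
  unfold ln
  simp only [TR_dir n s j c]
  field_simp
  ring

theorem sx_tr (n : ℕ) [NeZero n] (hn : Odd n) (h3 : 3 ≤ n) (k : ZMod n → ℝ) (c : E2) (s : ZMod n) (j : ℕ) :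
    sx n (fun i => k i - inner ℝ c (dir n i)) s j = sx n k s j := by
  unfold sx
  rw [TR_ver n hn h3 k c, inner_sub_left]
  ring

theorem sv_tr (n : ℕ) [NeZero n] (hn : Odd n) (h3 : 3 ≤ n) (k : ZMod n → ℝ) (ξ c : E2) (s : ZMod n) :
    sv n (fun i => k i - inner ℝ c (dir n i)) ξ s = (sv n k ξ s).shr 0 (- inner ℝ c (rot (dir n s))) := by
  have hh : 0 < (n - 1) / 2 := by omega
  have : Nonempty (Fin ((n - 1) / 2)) := ⟨⟨0, hh⟩⟩
  unfold sv Dat.shr
  simp only [Dat.mk.injEq, mul_zero, add_zero, true_and]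
  refine ⟨sx_tr n hn h3 k c s _, ?_, ?_⟩
  · funext x
    rw [zero_mul, zero_add, sub_neg_eq_add, ciSup_add (Set.finite_range _).bddAbove]
    refine iSup_congr fun i => ?_
    exact TR_ln n k c s (i.val + 1) x (sin_lo n hn h3 i.val i.isLt).ne'
  · funext x
    rw [zero_mul, zero_add, sub_neg_eq_add, ciInf_add (Set.finite_range _).bddBelow]
    refine iInf_congr fun i => ?_
    have e : (n - 1) / 2 + 1 + i.val = (n - 1) / 2 + i.val + 1 := by omega
    rw [e]
    obtain ⟨m, hm⟩ := hn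
    exact TR_ln n k c s ((n - 1) / 2 + i.val + 1) x
      (sin_up n ⟨m, hm⟩ h3 ((n - 1) / 2 + i.val) (by omega) (by have := i.isLt; omega)).ne

theorem jj_tr (n : ℕ) [NeZero n] (hn : Odd n) (h3 : 3 ≤ n) (k : ZMod n → ℝ) (ξ c : E2) (s : ZMod n) (hq : (sv n k ξ s).q ≠ 0) (m : ℕ) :
    jj n (fun i => k i - inner ℝ c (dir n i)) ξ s m = jj n k ξ s m ∧ ff n (fun i => k i - inner ℝ c (dir n i)) ξ s m = ff n k ξ s m := by
  unfold jj ff
  rw [sv_tr n hn h3, sx_tr n hn h3]
  have hq' : ((sv n k ξ s).shr 0 (- inner ℝ c (rot (dir n s)))).q ≠ 0 := hq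
  refine ⟨?_, Phi_shr _ hq _ _ _⟩
  rw [j_step _ hq' _ 0, j_step _ hq _ 0, j_shr _ hq, Phi_shr _ hq]

end Pool.Agent.Lib.MP_1dedaf_gt.DK
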