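import Pool.Agent.Lib.MP_1dedaf_gt.Mg.G024
import Pool.Agent.Lib.MP_1dedaf_gt.Mg.G004
import Pool.Agent.Lib.MP_1dedaf_gt.Mg.G012
import Pool.Agent.Lib.MP_1dedaf_gt.Mg.G013
import Pool.Agent.Lib.MP_1dedaf_gt.Mg.G019
import Pool.Agent.Lib.MP_1dedaf_gt.DK.DC.OF
import Pool.Agent.Lib.MP_1dedaf_gt.DK.DC.TR
import Pool.Agent.Lib.MP_1dedaf_gt.DK.N0

/-!
# TASK DC LG: polygons with nonnegative edges

`len : lo n k i ≤ hi n k i` for all `i`. `sx_mono`: `sx_succ` and `sin > 0`. `l_gd`: as in B3 (`sv_l_eq`): the lines `j` and `j + 1` pass through the vertex `s + j` (`ln_start`, `ln_end`), their slopes `slk n j < slk n (j+1)` (`slk_lt`) so left of the vertex the line `j` is above, right of it the line `j + 1`; with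
`sx` monotone on `0, ..., h` the line `j + 1` is the largest on `[sx j, sx (j+1)]` (induction away from `j + 1` on both sides; copy the proof of B3, it only uses the order of the vertices). `j_gd`: `j_const` (B8 needs `Reg`; here as hypothesis) with `l_gd` and `ln_aff`.
`w_gd`: `0 < w`: let `x0` be a point with `<x0, dir i> < k i` (`Fat`). `w = sx h`, `h = (n-1)/2`, `sx h = k s - <ver (s+h), dir s>`; `dir s = - (dir (s+h) + dir (s+h+1)) / (2 cos (dl/2))` (the two directions are at the angles `π - dl/2`, `π + dl/2` from `s`), so `<ver (s+h), dir s> = - (k (s+h) + k (s+h+1)) / (2 cos (dl/2)) < <x0, dir s> < k s` (`ver_inner`).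
`reg_gd`: continuity: B4. `fat`: `x = k s - <x0, dir s> ∈ (0, w)`, `y0 = - <x0, rot (dir s)>`: all lower lines are `< y0` and all upper lines `> y0` at `x` (for `z = (k s - x) dir s - y rot (dir s)` one has `<z, dir (s+j)> - k (s+j) = (k s - x) cos (j dl) - y sin (j dl) - k (s+j) = sin (j dl) (ln j x - y)`), finite sup / inf.
`l ≤ u` on `[0, w]`: approximation: `k1 = 1` (constant) has `lo n k1 i = (cos dl - 1)/sin dl < 0 < hi n k1 i`, `Fat`; `kt = (1-t) k + t k1` has positive edges and is `Fat` for `0 < t ≤ 1`, so by `opt_of`, `sv_tr`, and `sv_lt` / `sv_ends` (B4) `l_t ≤ u_t` on `[0, w_t]`; for `x ∈ [0, w)` and small `t` `x < w_t` (everything is affine in `t` inside finite sup / inf, so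
`l_t x → l x`, `u_t x → u x`, `w_t → w`), for `x = w` by continuity. (Or directly: `l` convex, `u` concave, so it is enough to look at `x = 0` and `x = w`, where both values are the `y`-coordinates of vertices (`l_gd`, and its mirror image for `u`).) `end_gd`: `l w = sy h = u w`.
-/

set_option autoImplicit false

open MeasureTheory Set Filter Topology

namespace Pool.Agent.Lib.MP_1dedaf_gt.DK

open Pool.Agent.Lib.MP_1dedaf_gt.LB

private theorem LG_h (n : ℕ) (hn : Odd n) (h3 : 3 ≤ n) : 0 < (n - 1) / 2 ∧ n = 2 * ((n - 1) / 2) + 1 := by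
  obtain ⟨m, rfl⟩ := hn
  omega

private theorem LG_ln_affine (n : ℕ) (k : ZMod n → ℝ) (s : ZMod n) (j : ℕ) (x y : ℝ) :
    ln n k s j x = ln n k s j y - (x - y) * (Real.cos (j * dl n) / Real.sin (j * dl n)) := by
  unfold ln
  ring

private theorem LG_alg (y X : ℝ) {a b c d : ℝ} (hb : b ≠ 0) (hd : d ≠ 0) :
    y - X * (c / d) - (y - X * (a / b)) = X * ((d * a - c * b) / (b * d)) := by
  field_simp
  ring

private theorem LG_step (n : ℕ) [NeZero n] (hn : Odd n) (h3 : 3 ≤ n) (k : ZMod n → ℝ) (s : ZMod n)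
    (i : ℕ) (h1 : Real.sin ((i + 1 : ℕ) * dl n) ≠ 0) (h2 : Real.sin ((i + 1 + 1 : ℕ) * dl n) ≠ 0)
    (x : ℝ) : ln n k s (i + 1 + 1) x - ln n k s (i + 1) x = (x - sx n k s (i + 1)) *
      (Real.sin (dl n) / (Real.sin ((i + 1 : ℕ) * dl n) * Real.sin ((i + 1 + 1 : ℕ) * dl n))) := by
  have e1 := ln_end n hn h3 k s i h1
  have e2 := ln_start n hn h3 k s (i + 1) h2
  have a1 := LG_ln_affine n k s (i + 1) x (sx n k s (i + 1))
  have a2 := LG_ln_affine n k s (i + 1 + 1) x (sx n k s (i + 1))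
  rw [e1] at a1
  rw [e2] at a2
  rw [a1, a2]
  have hs : Real.sin (dl n) = Real.sin ((i + 1 + 1 : ℕ) * dl n) * Real.cos ((i + 1 : ℕ) * dl n) -
      Real.cos ((i + 1 + 1 : ℕ) * dl n) * Real.sin ((i + 1 : ℕ) * dl n) := by
    rw [← Real.sin_sub]
    congr 1
    push_cast
    ring
  rw [hs]
  exact LG_alg _ _ h1 h2

private theorem LG_sin_dl (n : ℕ) [NeZero n] (hn : Odd n) (h3 : 3 ≤ n) : 0 < Real.sin (dl n) := by
  have h := sin_lo n hn h3 0 (by omega)
  simpa using h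

theorem sx_mono (n : ℕ) [NeZero n] (hn : Odd n) (h3 : 3 ≤ n) {k : ZMod n → ℝ} (hl : ∀ i, lo n k i ≤ hi n k i) (s : ZMod n) (j : ℕ)
    (hj : j < (n - 1) / 2) : sx n k s j ≤ sx n k s (j + 1) := by
  rw [sx_succ n hn h3 k s j]
  have h1 := sin_lo n hn h3 j hj
  have h2 := hl (s + ((j + 1 : ℕ) : ZMod n))
  have h4 := mul_nonneg h1.le (sub_nonneg.mpr h2)
  linarith

private theorem LG_anti (n : ℕ) [NeZero n] (hn : Odd n) (h3 : 3 ≤ n) {k : ZMod n → ℝ} (hl : ∀ i, lo n k i ≤ hi n k i) (s : ZMod n) (j : ℕ)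
    (hj : (n - 1) / 2 ≤ j) (hj2 : j < n - 1) : sx n k s (j + 1) ≤ sx n k s j := by
  rw [sx_succ n hn h3 k s j]
  have h1 := sin_up n hn h3 j hj hj2
  have h2 := hl (s + ((j + 1 : ℕ) : ZMod n))
  have h4 := mul_nonneg (neg_nonneg.2 h1.le) (sub_nonneg.mpr h2)
  linarith

private theorem LG_mono_lo (n : ℕ) [NeZero n] (hn : Odd n) (h3 : 3 ≤ n) {k : ZMod n → ℝ} (hl : ∀ i, lo n k i ≤ hi n k i)
    (s : ZMod n) (i : ℕ) : ∀ j, i ≤ j → j ≤ (n - 1) / 2 → sx n k s i ≤ sx n k s j := by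
  intro j hij
  induction j, hij using Nat.le_induction with
  | base => exact fun _ => le_rfl
  | succ j hij ih =>
    intro hj
    exact (ih (by omega)).trans (sx_mono n hn h3 hl s j (by omega))

private theorem LG_mono_up (n : ℕ) [NeZero n] (hn : Odd n) (h3 : 3 ≤ n) {k : ZMod n → ℝ} (hl : ∀ i, lo n k i ≤ hi n k i)
    (s : ZMod n) (i : ℕ) (hi : (n - 1) / 2 ≤ i) : ∀ j, i ≤ j → j ≤ n - 1 → sx n k s j ≤ sx n k s i := by
  intro j hij
  induction j, hij using Nat.le_induction with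
  | base => exact fun _ => le_rfl
  | succ j hij ih =>
    intro hj
    exact (LG_anti n hn h3 hl s j (by omega) (by omega)).trans (ih (by omega))

private theorem LG_le_lo (n : ℕ) [NeZero n] (hn : Odd n) (h3 : 3 ≤ n) {k : ZMod n → ℝ} (hl : ∀ i, lo n k i ≤ hi n k i)
    (s : ZMod n) (j : ℕ) (hj : j < (n - 1) / 2) (x : ℝ)
    (hx : x ∈ Icc (sx n k s j) (sx n k s (j + 1))) (i : ℕ) (hi : i < (n - 1) / 2) :
    ln n k s (i + 1) x ≤ ln n k s (j + 1) x := by
  have hstep : ∀ m, m + 1 < (n - 1) / 2 → 0 < Real.sin (dl n) /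
      (Real.sin ((m + 1 : ℕ) * dl n) * Real.sin ((m + 1 + 1 : ℕ) * dl n)) := fun m hm =>
    div_pos (LG_sin_dl n hn h3) (mul_pos (sin_lo n hn h3 m (by omega)) (sin_lo n hn h3 (m + 1) hm))
  have hne : ∀ m, m < (n - 1) / 2 → Real.sin ((m + 1 : ℕ) * dl n) ≠ 0 := fun m hm =>
    (sin_lo n hn h3 m hm).ne'
  rcases le_total i j with hij | hij
  · have key : ∀ m, i ≤ m → m ≤ j → ln n k s (i + 1) x ≤ ln n k s (m + 1) x := by
      intro m him
      induction m, him using Nat.le_induction with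
      | base => exact fun _ => le_rfl
      | succ m him ih =>
        intro hm
        refine (ih (by omega)).trans ?_
        have h1 := LG_step n hn h3 k s m (hne m (by omega)) (hne (m + 1) (by omega)) x
        have h2 := LG_mono_lo n hn h3 hl s (m + 1) j hm hj.le
        have h4 := mul_nonneg (sub_nonneg.mpr (h2.trans hx.1)) (hstep m (by omega)).le
        linarith
    exact key j hij le_rfl
  · have key : ∀ m, j ≤ m → m < (n - 1) / 2 → ln n k s (m + 1) x ≤ ln n k s (j + 1) x := by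
      intro m hjm
      induction m, hjm using Nat.le_induction with
      | base => exact fun _ => le_rfl
      | succ m hjm ih =>
        intro hm
        refine le_trans ?_ (ih (by omega))
        have h1 := LG_step n hn h3 k s m (hne m (by omega)) (hne (m + 1) hm) x
        have h2 := LG_mono_lo n hn h3 hl s (j + 1) (m + 1) (by omega) (by omega)
        have h4 := mul_nonneg (sub_nonneg.mpr (hx.2.trans h2)) (hstep m hm).le
        linarith
    exact key i hij hi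

private theorem LG_le_up (n : ℕ) [NeZero n] (hn : Odd n) (h3 : 3 ≤ n) {k : ZMod n → ℝ} (hl : ∀ i, lo n k i ≤ hi n k i)
    (s : ZMod n) (j : ℕ) (hj : (n - 1) / 2 ≤ j)
    (hj2 : j < n - 1) (x : ℝ) (hx : x ∈ Icc (sx n k s (j + 1)) (sx n k s j)) (i : ℕ)
    (hi : (n - 1) / 2 ≤ i) (hi2 : i < n - 1) :
    ln n k s (j + 1) x ≤ ln n k s (i + 1) x := by
  have hstep : ∀ m, (n - 1) / 2 ≤ m → m + 1 < n - 1 → 0 < Real.sin (dl n) /
      (Real.sin ((m + 1 : ℕ) * dl n) * Real.sin ((m + 1 + 1 : ℕ) * dl n)) := fun m hm hm2 =>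
    div_pos (LG_sin_dl n hn h3) (mul_pos_of_neg_of_neg (sin_up n hn h3 m hm (by omega))
      (sin_up n hn h3 (m + 1) (by omega) hm2))
  have hne : ∀ m, (n - 1) / 2 ≤ m → m < n - 1 → Real.sin ((m + 1 : ℕ) * dl n) ≠ 0 :=
    fun m hm hm2 => (sin_up n hn h3 m hm hm2).ne
  rcases le_total i j with hij | hij
  · have key : ∀ m, i ≤ m → m ≤ j → ln n k s (m + 1) x ≤ ln n k s (i + 1) x := by
      intro m him
      induction m, him using Nat.le_induction with
      | base => exact fun _ => le_rfl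
      | succ m him ih =>
        intro hm
        refine le_trans ?_ (ih (by omega))
        have h1 := LG_step n hn h3 k s m (hne m (by omega) (by omega))
          (hne (m + 1) (by omega) (by omega)) x
        have h2 := LG_mono_up n hn h3 hl s (m + 1) (by omega) j hm hj2.le
        have h4 := mul_nonneg (sub_nonneg.mpr (hx.2.trans h2))
          (hstep m (by omega) (by omega)).le
        linarith
    exact key j hij le_rfl
  · have key : ∀ m, j ≤ m → m < n - 1 → ln n k s (j + 1) x ≤ ln n k s (m + 1) x := by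
      intro m hjm
      induction m, hjm using Nat.le_induction with
      | base => exact fun _ => le_rfl
      | succ m hjm ih =>
        intro hm
        refine (ih (by omega)).trans ?_
        have h1 := LG_step n hn h3 k s m (hne m (by omega) (by omega))
          (hne (m + 1) (by omega) hm) x
        have h2 := LG_mono_up n hn h3 hl s (j + 1) (by omega) (m + 1) (by omega) (by omega)
        have h4 := mul_nonneg (sub_nonneg.mpr (h2.trans hx.1)) (hstep m (by omega) hm).le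
        linarith
    exact key i hij hi2

theorem l_gd (n : ℕ) [NeZero n] (hn : Odd n) (h3 : 3 ≤ n) {k : ZMod n → ℝ} (hl : ∀ i, lo n k i ≤ hi n k i) (ξ : E2) (s : ZMod n) (j : ℕ)
    (hj : j < (n - 1) / 2) (x : ℝ) (hx : x ∈ Icc (sx n k s j) (sx n k s (j + 1))) : (sv n k ξ s).l x = ln n k s (j + 1) x := by
  show (⨆ i : Fin ((n - 1) / 2), ln n k s (i.val + 1) x) = ln n k s (j + 1) x
  have : Nonempty (Fin ((n - 1) / 2)) := ⟨⟨j, hj⟩⟩
  refine le_antisymm (ciSup_le fun i => LG_le_lo n hn h3 hl s j hj x hx i.val i.isLt) ?_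
  exact le_ciSup (f := fun i : Fin ((n - 1) / 2) => ln n k s (i.val + 1) x)
    (Set.finite_range _).bddAbove ⟨j, hj⟩

/-- The upper boundary. -/
theorem LG_u_gd (n : ℕ) [NeZero n] (hn : Odd n) (h3 : 3 ≤ n) {k : ZMod n → ℝ} (hl : ∀ i, lo n k i ≤ hi n k i) (ξ : E2) (s : ZMod n) (j : ℕ)
    (hj : (n - 1) / 2 ≤ j) (hj2 : j < n - 1) (x : ℝ) (hx : x ∈ Icc (sx n k s (j + 1)) (sx n k s j)) :
    (sv n k ξ s).u x = ln n k s (j + 1) x := by
  show (⨅ i : Fin ((n - 1) / 2), ln n k s ((n - 1) / 2 + 1 + i.val) x) = ln n k s (j + 1) x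
  have hodd : n - 1 = 2 * ((n - 1) / 2) := by
    obtain ⟨m, hm⟩ := hn
    omega
  have hjf : j - (n - 1) / 2 < (n - 1) / 2 := by omega
  have : Nonempty (Fin ((n - 1) / 2)) := ⟨⟨j - (n - 1) / 2, hjf⟩⟩
  refine le_antisymm ?_ (le_ciInf fun i => ?_)
  · have h1 := ciInf_le (f := fun i : Fin ((n - 1) / 2) => ln n k s ((n - 1) / 2 + 1 + i.val) x)
      (Set.finite_range _).bddBelow ⟨j - (n - 1) / 2, hjf⟩
    have h2 : (n - 1) / 2 + 1 + (j - (n - 1) / 2) = j + 1 := by omega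
    simp only [h2] at h1
    exact h1
  · have h1 := LG_le_up n hn h3 hl s j hj hj2 x hx ((n - 1) / 2 + i.val) (by omega)
      (by have := i.isLt; omega)
    have h2 : (n - 1) / 2 + 1 + i.val = (n - 1) / 2 + i.val + 1 := by omega
    rw [h2]
    exact h1

private theorem LG_frame (u θ z : E2) (hu : ‖u‖ = 1) :
    inner ℝ θ z = inner ℝ θ u * inner ℝ z u + inner ℝ θ (rot u) * inner ℝ z (rot u) := by
  have h1 : u 0 ^ 2 + u 1 ^ 2 = 1 := by
    have h := EuclideanSpace.real_norm_sq_eq u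
    rw [Fin.sum_univ_two, hu] at h
    linarith
  simp only [PiLp.inner_apply, rot, Fin.sum_univ_two, RCLike.inner_apply, conj_trivial]
  simp
  linear_combination (-(z 0 * θ 0 + z 1 * θ 1)) * h1

private theorem LG_pt (n : ℕ) [NeZero n] (k : ZMod n → ℝ) (s : ZMod n) (j : ℕ) (z : E2) (hs : Real.sin ((j : ℝ) * dl n) ≠ 0) :
    inner ℝ z (dir n (s + (j : ℕ))) - k (s + (j : ℕ)) = Real.sin ((j : ℝ) * dl n) *
      (ln n k s j (k s - inner ℝ z (dir n s)) - (- inner ℝ z (rot (dir n s)))) := by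
  obtain ⟨h1, h2, -⟩ := dir_inner n s j
  rw [LG_frame (dir n s) z (dir n (s + (j : ℕ))) (dir_norm n s), h1, h2]
  unfold ln
  field_simp
  ring

private theorem LG_low (n : ℕ) [NeZero n] (hn : Odd n) (h3 : 3 ≤ n) {k : ZMod n → ℝ} (s : ZMod n) {z : E2}
    (hz : ∀ i, inner ℝ z (dir n i) < k i) (j : ℕ) (hj : j < (n - 1) / 2) :
    ln n k s (j + 1) (k s - inner ℝ z (dir n s)) < - inner ℝ z (rot (dir n s)) := by
  have h1 := sin_lo n hn h3 j hj
  have h2 := LG_pt n k s (j + 1) z h1.ne'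
  have h4 := hz (s + ((j + 1 : ℕ) : ZMod n))
  by_contra h
  push Not at h
  have h5 := mul_nonneg h1.le (sub_nonneg.2 h)
  linarith

private theorem LG_upp (n : ℕ) [NeZero n] (hn : Odd n) (h3 : 3 ≤ n) {k : ZMod n → ℝ} (s : ZMod n) {z : E2}
    (hz : ∀ i, inner ℝ z (dir n i) < k i) (j : ℕ) (hj : (n - 1) / 2 ≤ j) (hj2 : j < n - 1) :
    - inner ℝ z (rot (dir n s)) < ln n k s (j + 1) (k s - inner ℝ z (dir n s)) := by
  have h1 := sin_up n hn h3 j hj hj2
  have h2 := LG_pt n k s (j + 1) z h1.ne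
  have h4 := hz (s + ((j + 1 : ℕ) : ZMod n))
  by_contra h
  push Not at h
  have h5 := mul_nonneg (neg_nonneg.2 h1.le) (sub_nonneg.2 h)
  linarith

private theorem LG_w (n : ℕ) [NeZero n] (hn : Odd n) (h3 : 3 ≤ n) {k : ZMod n → ℝ} (s : ZMod n) {z : E2}
    (hz : ∀ i, inner ℝ z (dir n i) < k i) : k s - inner ℝ z (dir n s) < sx n k s ((n - 1) / 2) := by
  obtain ⟨hh, hnn⟩ := LG_h n hn h3
  have h1 := LG_low n hn h3 s hz ((n - 1) / 2 - 1) (by omega)
  have h2 := LG_upp n hn h3 s hz ((n - 1) / 2) le_rfl (by omega)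
  have s1 := sin_lo n hn h3 ((n - 1) / 2 - 1) (by omega)
  have s2 := sin_up n hn h3 ((n - 1) / 2) le_rfl (by omega)
  have e : (n - 1) / 2 - 1 + 1 = (n - 1) / 2 := by omega
  have h4 := LG_step n hn h3 k s ((n - 1) / 2 - 1) s1.ne' (by rw [e]; exact s2.ne) (k s - inner ℝ z (dir n s))
  rw [e] at h1 h4 s1
  have h5 : Real.sin (dl n) / (Real.sin (((n - 1) / 2 : ℕ) * dl n) * Real.sin (((n - 1) / 2 + 1 : ℕ) * dl n)) < 0 :=
    div_neg_of_pos_of_neg (LG_sin_dl n hn h3) (mul_neg_of_pos_of_neg s1 s2)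
  by_contra h
  push Not at h
  have h6 := mul_nonneg (sub_nonneg.2 h) (neg_nonneg.2 h5.le)
  linarith

theorem w_gd (n : ℕ) [NeZero n] (hn : Odd n) (h3 : 3 ≤ n) {k : ZMod n → ℝ} (hf : Fat (dir n) k) (ξ : E2) (s : ZMod n) : 0 < (sv n k ξ s).w := by
  obtain ⟨z, hz⟩ := hf
  show 0 < sx n k s ((n - 1) / 2)
  have h1 := LG_w n hn h3 s hz
  have h2 := hz s
  linarith

private theorem LG_rot_rot (x y : E2) : inner ℝ (rot x) (rot y) = inner ℝ x y := by
  simp [rot, EuclideanSpace.inner_eq_star_dotProduct, dotProduct, Fin.sum_univ_two]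
  ring

private theorem LG_rot_self (x : E2) : inner ℝ x (rot x) = 0 := by
  simp [rot, EuclideanSpace.inner_eq_star_dotProduct, dotProduct, Fin.sum_univ_two]
  ring

private theorem LG_inner (n : ℕ) (s : ZMod n) (c t : ℝ) :
    inner ℝ (c • dir n s + t • rot (dir n s)) (rot (dir n s)) = t := by
  rw [inner_add_left, real_inner_smul_left, real_inner_smul_left, LG_rot_self, LG_rot_rot,
    real_inner_self_eq_norm_sq, dir_norm]
  ring

/-- The values at `0`. -/
theorem LG_zero (n : ℕ) [NeZero n] (hn : Odd n) (h3 : 3 ≤ n) {k : ZMod n → ℝ} (hl : ∀ i, lo n k i ≤ hi n k i) (ξ : E2) (s : ZMod n) :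
    (sv n k ξ s).l 0 = - hi n k s ∧ (sv n k ξ s).u 0 = - lo n k s := by
  obtain ⟨hh, hnn⟩ := LG_h n hn h3
  have hz := sx_zero n hn h3 k s
  have hla := sx_last n hn h3 k s
  have hn2 : n - 2 + 1 = n - 1 := by omega
  constructor
  · have h1 : (0 : ℝ) ∈ Icc (sx n k s 0) (sx n k s (0 + 1)) := by
      have := sx_mono n hn h3 hl s 0 hh
      rw [hz] at this ⊢
      exact ⟨le_refl _, this⟩
    rw [l_gd n hn h3 hl ξ s 0 hh 0 h1]
    have h2 := ln_start n hn h3 k s 0 (sin_lo n hn h3 0 hh).ne'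
    rw [hz] at h2
    rw [h2]
    unfold sy ver
    have h0 : s + ((0 : ℕ) : ZMod n) = s := by simp
    rw [h0, LG_inner]
  · have hlt := LG_anti n hn h3 hl s (n - 2) (by omega) (by omega)
    rw [hn2, hla] at hlt
    have h1 : (0 : ℝ) ∈ Icc (sx n k s (n - 2 + 1)) (sx n k s (n - 2)) := by
      rw [hn2, hla]
      exact ⟨le_refl _, hlt⟩
    rw [LG_u_gd n hn h3 hl ξ s (n - 2) (by omega) (by omega) 0 h1]
    have h2 := ln_end n hn h3 k s (n - 2) (sin_up n hn h3 (n - 2) (by omega) (by omega)).ne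
    rw [hn2, hla] at h2
    rw [hn2, h2]
    unfold sy
    have h0 : s + ((n - 1 : ℕ) : ZMod n) = s - 1 := by
      rw [Nat.cast_sub (by omega : 1 ≤ n)]
      simp
      ring
    rw [h0, ver_eq n hn h3 k s, LG_inner]

theorem end_gd (n : ℕ) [NeZero n] (hn : Odd n) (h3 : 3 ≤ n) {k : ZMod n → ℝ} (hl : ∀ i, lo n k i ≤ hi n k i) (ξ : E2) (s : ZMod n) :
    (sv n k ξ s).l (sv n k ξ s).w = (sv n k ξ s).u (sv n k ξ s).w := by
  obtain ⟨hh, hnn⟩ := LG_h n hn h3
  show (sv n k ξ s).l (sx n k s ((n - 1) / 2)) = (sv n k ξ s).u (sx n k s ((n - 1) / 2))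
  have h5 : (sv n k ξ s).l (sx n k s ((n - 1) / 2)) = sy n k s ((n - 1) / 2) := by
    have he : (n - 1) / 2 - 1 + 1 = (n - 1) / 2 := by omega
    have hlt := sx_mono n hn h3 hl s ((n - 1) / 2 - 1) (by omega)
    have h6 := l_gd n hn h3 hl ξ s ((n - 1) / 2 - 1) (by omega) (sx n k s ((n - 1) / 2))
      (by rw [he] at hlt ⊢; exact ⟨hlt, le_refl _⟩)
    have h7 := ln_end n hn h3 k s ((n - 1) / 2 - 1) (sin_lo n hn h3 ((n - 1) / 2 - 1) (by omega)).ne'
    rw [he] at h6 h7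
    rw [h6, h7]
  have h8 : (sv n k ξ s).u (sx n k s ((n - 1) / 2)) = sy n k s ((n - 1) / 2) := by
    have hlt := LG_anti n hn h3 hl s ((n - 1) / 2) (le_refl _) (by omega)
    rw [LG_u_gd n hn h3 hl ξ s ((n - 1) / 2) (le_refl _) (by omega) (sx n k s ((n - 1) / 2)) ⟨hlt, le_refl _⟩]
    exact ln_start n hn h3 k s ((n - 1) / 2) (sin_up n hn h3 ((n - 1) / 2) (le_refl _) (by omega)).ne
  rw [h5, h8]

theorem reg_gd (n : ℕ) [NeZero n] (hn : Odd n) (h3 : 3 ≤ n) {k : ZMod n → ℝ} (hl : ∀ i, lo n k i ≤ hi n k i) (hf : Fat (dir n) k) (ξ : E2)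
    (s : ZMod n) (hq : (sv n k ξ s).q ≠ 0) : (sv n k ξ s).Reg := by
  obtain ⟨hh, hnn⟩ := LG_h n hn h3
  have : Nonempty (Fin ((n - 1) / 2)) := ⟨⟨0, hh⟩⟩
  have hw := w_gd n hn h3 hf ξ s
  have e4 := end_gd n hn h3 hl ξ s
  obtain ⟨e1, e2⟩ := LG_zero n hn h3 hl ξ s
  obtain ⟨hc1, hcl⟩ := sv_l_cont n hn h3 k ξ s
  obtain ⟨hc2, hcu⟩ := sv_u_cont n hn h3 k ξ s
  refine ⟨hq, hw, hc1, hc2, ?_, ?_⟩
  · intro x hx
    have h0 : (sv n k ξ s).l 0 ≤ (sv n k ξ s).u 0 := by
      rw [e1, e2]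
      exact neg_le_neg (hl s)
    set K := sv n k ξ s with hK
    set t : ℝ := x / K.w with ht
    have ht0 : 0 ≤ t := div_nonneg hx.1 hw.le
    have ht1 : t ≤ 1 := by rw [ht, div_le_one hw]; exact hx.2
    have hxe : x = (1 - t) * 0 + t * K.w := by rw [ht]; field_simp; ring
    have h1 := hcl.2 (mem_univ (0 : ℝ)) (mem_univ K.w) (by linarith : 0 ≤ 1 - t) ht0 (by ring)
    have h2 := hcu.2 (mem_univ (0 : ℝ)) (mem_univ K.w) (by linarith : 0 ≤ 1 - t) ht0 (by ring)
    simp only [smul_eq_mul] at h1 h2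
    rw [← hxe] at h1 h2
    have h3' : (1 - t) * K.l 0 ≤ (1 - t) * K.u 0 := mul_le_mul_of_nonneg_left h0 (by linarith)
    rw [e4] at h1
    linarith
  · obtain ⟨z, hz⟩ := hf
    have hxw := LG_w n hn h3 s hz
    have hx0 := hz s
    refine ⟨k s - inner ℝ z (dir n s), ⟨by linarith, hxw.le⟩, ?_⟩
    have h1 : (sv n k ξ s).l (k s - inner ℝ z (dir n s)) < - inner ℝ z (rot (dir n s)) := by
      show (⨆ i : Fin ((n - 1) / 2), ln n k s (i.val + 1) (k s - inner ℝ z (dir n s))) < _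
      obtain ⟨i, hi⟩ := exists_eq_ciSup_of_finite
        (f := fun i : Fin ((n - 1) / 2) => ln n k s (i.val + 1) (k s - inner ℝ z (dir n s)))
      rw [← hi]
      exact LG_low n hn h3 s hz i.val i.isLt
    have h2 : - inner ℝ z (rot (dir n s)) < (sv n k ξ s).u (k s - inner ℝ z (dir n s)) := by
      show _ < (⨅ i : Fin ((n - 1) / 2), ln n k s ((n - 1) / 2 + 1 + i.val) (k s - inner ℝ z (dir n s)))
      obtain ⟨i, hi⟩ := exists_eq_ciInf_of_finite
        (f := fun i : Fin ((n - 1) / 2) => ln n k s ((n - 1) / 2 + 1 + i.val) (k s - inner ℝ z (dir n s)))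
      rw [← hi]
      have e : (n - 1) / 2 + 1 + i.val = (n - 1) / 2 + i.val + 1 := by omega
      rw [e]
      exact LG_upp n hn h3 s hz ((n - 1) / 2 + i.val) (by omega) (by have := i.isLt; omega)
    exact h1.trans h2

/-- The kernel can be computed at the near end of the edge. -/
theorem j_gd (n : ℕ) [NeZero n] (hn : Odd n) (h3 : 3 ≤ n) {k : ZMod n → ℝ} (hl : ∀ i, lo n k i ≤ hi n k i) (ξ : E2) (s : ZMod n) (hR : (sv n k ξ s).Reg)
    {m : ℕ} (hm : 0 < m) (hm2 : 2 * m < n) : jj n k ξ s m = (sv n k ξ s).j (sx n k s (m - 1)) (slk n m) := by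
  have e : m - 1 + 1 = m := by omega
  have h := sx_mono n hn h3 hl s (m - 1) (by omega)
  rw [e] at h
  refine j_const _ hR (slk n m) (sle n k s m) _ _ h fun x hx => ?_
  have h1 := l_gd n hn h3 hl ξ s (m - 1) (by omega) x (by rw [e]; exact hx)
  rw [e] at h1
  rw [h1, ln_aff]

end Pool.Agent.Lib.MP_1dedaf_gt.DK
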