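import Pool.Agent.Lib.MP_1dedaf_gt.Mg.G024
import Pool.Agent.Lib.MP_1dedaf_gt.Mg.G003
import Pool.Agent.Lib.MP_1dedaf_gt.DK.A3
import Pool.Agent.Lib.MP_1dedaf_gt.DK.A4
import Pool.Agent.Lib.MP_1dedaf_gt.Mg.G006
import Pool.Agent.Lib.MP_1dedaf_gt.DK.C4
import Pool.Agent.Lib.MP_1dedaf_gt.Mg.G005
import Pool.Agent.Lib.MP_1dedaf_gt.DK.Goals

/-!
# TASK DC CS: corner-filled bodies: strict positivity, and nonnegativity without an edge on `y = 0`

`cf_strict`: `0 ≤ J` by `CFPos`; suppose `J = 0`. `φ c := exp (q c) J (K.col.cut 0 c)`; `φ 0 = J = 0` (`cut_zero`), and by `t_move` `φ` has a negative right derivative at `0`, so `φ c < 0` for all small `c > 0`, i.e. `J (cut 0 c) < 0`. Choose `c` also with `c < u 0` (so `mem 0 c`) and `0 < r c` (`r` is continuous, `r 0 > 0`). `D (cut 0 c) ≠ 0` by `cut_bound`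
(see C6: `|J| ≤ C |D|` gives `J = 0` when `D = 0`). `cut_bd` (C5) gives `K0.CF` with `K0.col.J = (cut 0 c).J < 0` (`cut_J`), `K0.u 0 = u 0 - c > 0`, `K0.r 0 = r c > 0`: contradiction to `CFPos` for `K0`.
`cf_nonneg`: if `0 < r 0` use `CFPos`. Otherwise for small `c > 0`: `mem 0 c`, and `0 < r c`: by convexity: `(0, 0)`, `(0, u 0)` and some `(x', y')` with `x' > 0` (`K.fat` and `hw`: take `x' = w`, `y' = l w`) belong to the body, so for `0 < c < u 0` a point `(x, c)` with `x > 0` does (segment from `(x', y')` towards `(0, 0)` or `(0, u 0)`: for small `c`: the point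
`θ (x', y') + (1-θ) (0, t)` with `θ y' + (1-θ) t = c`, `θ` small: take `t = (c - θ y')/(1-θ) ∈ [0, u 0]`, `θ = min (c / (2 (y' + 1))) (1/2)`). If `(cut 0 c).D = 0` then `(cut 0 c).J = 0` (`cut_bound`), otherwise as above `0 ≤ (cut 0 c).J` by `CFPos`. Let `c → 0`: `cut_cont` (C4) gives `J (cut 0 c) → J (cut 0 0) = J` (if `D (cut 0 0) = D ≠ 0`, see the form of `cut_cont` / `F_cont`).
-/

set_option autoImplicit false

open MeasureTheory Set Filter Topology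

namespace Pool.Agent.Lib.MP_1dedaf_gt.DK

open Pool.Agent.Lib.MP_1dedaf_gt.LB

/-- The kernel of a cut body is nonnegative. -/
theorem CS_cut (hP : CFPos) (K : Bd) (h : K.CF) (c : ℝ) (hc : 0 ≤ c) (hcu : c < K.u 0) (hrc : 0 < K.r c) :
    0 ≤ (K.col.cut 0 c).J := by
  obtain ⟨hl0, -, -, -, -, -, -, -, -, -, -, -, -⟩ := cf_facts K h
  have hm : K.mem 0 c := ⟨le_rfl, h.hw.le, by rw [hl0]; exact hc, hcu.le⟩
  by_cases hD : (K.col.cut 0 c).D = 0
  · obtain ⟨C, hC⟩ := cut_bound K h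
    have h4 := (hC (0, c) hm).2
    dsimp only at h4
    rw [hD, mul_zero] at h4
    rw [abs_nonpos_iff.1 h4]
  · obtain ⟨K0, w1, hK0, hw1, hw1', hcol, hcoll, -, hu0, hr0⟩ := cut_bd K h 0 c hm hD
    obtain ⟨hJ0, -, -, -⟩ := cut_J K h 0 c hm K0 w1 hw1.le hw1' hcol hcoll
    rw [← hJ0]
    exact hP K0 hK0 (by rw [hr0, sub_zero]; exact hrc) (by rw [hu0]; linarith)

theorem cf_strict (hP : CFPos) (K : Bd) (h : K.CF) (hr : 0 < K.r 0) (hu : 0 < K.u 0)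
    (hneg : (K.col.a - K.St) * (K.col.b * K.St - K.col.M) < 0) : 0 < K.col.J := by
  by_contra hJ
  have hJ0 : K.col.J = 0 := le_antisymm (not_lt.1 hJ) (hP K h hr hu)
  obtain ⟨-, -, -, -, hlx, -, -, -, -, -, -, -, -⟩ := cf_facts K h
  have hd : (K.col.a - K.St) * (K.col.b * K.St - K.col.M) / Real.exp (K.p * K.r 0) < 0 :=
    div_neg_of_neg_of_pos hneg (Real.exp_pos _)
  have h1 : Tendsto (slope (fun c => Real.exp (K.q * c) * (K.col.cut 0 c).J) 0) (𝓝[>] (0:ℝ))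
      (𝓝 ((K.col.a - K.St) * (K.col.b * K.St - K.col.M) / Real.exp (K.p * K.r 0))) :=
    (hasDerivWithinAt_iff_tendsto_slope' (lt_irrefl (0:ℝ))).1 ((t_move K h).mono Ioi_subset_Ici_self)
  have h2 := h1.eventually (Iio_mem_nhds hd)
  have h3 : ∀ᶠ c in 𝓝[>] (0:ℝ), c ∈ Ioo 0 (K.u 0) := Ioo_mem_nhdsGT hu
  have h4 : ∀ᶠ c in 𝓝[>] (0:ℝ), 0 < K.r c :=
    nhdsWithin_le_nhds ((h.cr.tendsto 0).eventually (Ioi_mem_nhds hr))
  obtain ⟨c, ⟨h5, h6⟩, h7⟩ := ((h2.and h3).and h4).exists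
  have h8 := CS_cut hP K h c h6.1.le h6.2 h7
  have h9 : (K.col.cut 0 0).J = 0 := by
    rw [Dat.cut_zero K.col h.hw.le hlx h.lu, hJ0]
  rw [slope_def_field] at h5
  rw [h9, mul_zero, sub_zero, sub_zero] at h5
  exact absurd h5 (not_lt.2 (div_nonneg (mul_nonneg (Real.exp_pos _).le h8) h6.1.le))

/-- The rows above `y = 0` have positive length. -/
theorem CS_row (K : Bd) (h : K.CF) (c : ℝ) (hc : 0 < c) (hcu : c < K.u 0) : 0 < K.r c := by
  obtain ⟨hl0, -, -, -, hlx, -, -, -, -, -, -, -, -⟩ := cf_facts K h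
  have hw := h.hw
  have h0w : (0:ℝ) ∈ Icc 0 K.w := ⟨le_rfl, hw.le⟩
  have hww : K.w ∈ Icc 0 K.w := ⟨hw.le, le_rfl⟩
  have hu0 : 0 < K.u 0 := hc.trans hcu
  have hlw := hlx K.w hww
  have huw : 0 ≤ K.u K.w := hlw.trans (h.lu K.w hww)
  set θ := min (c / (K.l K.w + 1)) ((K.u 0 - c) / K.u 0) with hθ
  have hθ0 : 0 < θ := lt_min (div_pos hc (by linarith)) (div_pos (by linarith) hu0)
  have hθ1 : θ ≤ 1 := (min_le_right _ _).trans ((div_le_one hu0).2 (by linarith))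
  have hθl : θ * K.l K.w ≤ c := by
    have h1 : θ * (K.l K.w + 1) ≤ c := by
      have h2 := mul_le_mul_of_nonneg_right (min_le_left (c / (K.l K.w + 1)) ((K.u 0 - c) / K.u 0))
        (by linarith : (0:ℝ) ≤ K.l K.w + 1)
      rwa [div_mul_cancel₀ c (by linarith : K.l K.w + 1 ≠ 0)] at h2
    nlinarith
  have hθu : θ * K.u 0 ≤ K.u 0 - c := by
    have h2 := mul_le_mul_of_nonneg_right (min_le_right (c / (K.l K.w + 1)) ((K.u 0 - c) / K.u 0)) hu0.le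
    rwa [div_mul_cancel₀ _ hu0.ne'] at h2
  have hl := h.vl.2 h0w hww (by linarith : (0:ℝ) ≤ 1 - θ) hθ0.le (by ring)
  have hu := h.vu.2 h0w hww (by linarith : (0:ℝ) ≤ 1 - θ) hθ0.le (by ring)
  simp only [smul_eq_mul, mul_zero, zero_add] at hl hu
  rw [hl0, mul_zero, zero_add] at hl
  have hm : K.mem (θ * K.w) c := by
    refine ⟨(mul_pos hθ0 hw).le, ?_, hl.trans hθl, ?_⟩
    · nlinarith
    · have h3 : 0 ≤ θ * K.u K.w := mul_nonneg hθ0.le huw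
      nlinarith
  exact (mul_pos hθ0 hw).trans_le ((h.iff _ _).1 hm).2.2.2

theorem cf_nonneg (hP : CFPos) (K : Bd) (h : K.CF) (hu : 0 < K.u 0) : 0 ≤ K.col.J := by
  obtain ⟨hl0, -, -, -, hlx, -, -, -, -, -, -, -, -⟩ := cf_facts K h
  have hF : ContinuousWithinAt
      (fun z : ℝ × ℝ => Real.exp (K.p * z.1 + K.q * z.2) * (K.col.cut z.1 z.2).J) {z | K.mem z.1 z.2} (0, 0) :=
    F_cont K h (0, 0) h.corner
  have hev : ∀ᶠ c in 𝓝[>] (0:ℝ), c ∈ Ioo 0 (K.u 0) := Ioo_mem_nhdsGT hu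
  have ht : Tendsto (fun c : ℝ => ((0:ℝ), c)) (𝓝[>] 0) (𝓝[{z : ℝ × ℝ | K.mem z.1 z.2}] ((0:ℝ), (0:ℝ))) := by
    refine tendsto_nhdsWithin_iff.2 ⟨?_, ?_⟩
    · exact ((continuous_const.prodMk continuous_id).tendsto (0:ℝ)).mono_left nhdsWithin_le_nhds
    · filter_upwards [hev] with c hc
      exact ⟨le_rfl, h.hw.le, by rw [hl0]; exact hc.1.le, hc.2.le⟩
  have h1 := hF.tendsto.comp ht
  have h2 : Real.exp (K.p * 0 + K.q * 0) * (K.col.cut 0 0).J = K.col.J := by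
    rw [Dat.cut_zero K.col h.hw.le hlx h.lu, mul_zero, mul_zero, add_zero, Real.exp_zero, one_mul]
  have h3 : 0 ≤ Real.exp (K.p * 0 + K.q * 0) * (K.col.cut 0 0).J := by
    refine ge_of_tendsto h1 ?_
    filter_upwards [hev] with c hc
    exact mul_nonneg (Real.exp_pos _).le (CS_cut hP K h c hc.1.le hc.2 (CS_row K h c hc.1 hc.2))
  rwa [h2] at h3

end Pool.Agent.Lib.MP_1dedaf_gt.DK
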