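import Pool.Agent.Lib.MP_1dedaf_gt.DK.DC.CS
import Pool.Agent.Lib.MP_1dedaf_gt.DK.A2
import Pool.Agent.Lib.MP_1dedaf_gt.DK.A3
import Pool.Agent.Lib.MP_1dedaf_gt.DK.N0
import Pool.Agent.Lib.MP_1dedaf_gt.Mg.G019

/-!
# TASK DC PS: the self-kernel `psi` is nonnegative

Case `l 0 < u 0`. For `k ≤ k0` with `p + q k ≠ 0`: `K.shr k (l 0)` has `l' x = l x - (k x + l 0) ≥ 0` (for `k ≤ k0`, `x ≥ 0`), `l' 0 = 0`, `u' 0 > 0`; `exists_bd` (A3; `p' = p + q k ≠ 0`, `q ≠ 0`, the functions stay convex / concave) gives `K' : Bd`, `K'.CF`, `K'.col = K.shr k (l 0)`; `cf_nonneg` and `J_eq` (A2): `0 ≤ (K.shr k (l 0)).j 0 0 = K.j 0 k` (`j_shr`).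
By `j_step` `K.j 0 k = K.j 0 0 - k Phi 0` and `Phi 0 = psi` (`Xi 0 = 0`); with `k → -∞` (avoid the one value with `p + q k = 0`) `psi < 0` is impossible.
Case `l 0 = u 0`: for `a_j → 0+` with `l a_j < u a_j` (by convexity `l < u` on `(0, x1)` where `l x1 < u x1`: `u - l` is concave, `≥ 0`, `> 0` at `x1`): `K_j = ⟨p, q, w - a_j, l (a_j + ·), u (a_j + ·)⟩` is `Reg`, of the first kind (the lower bound by a line: hypothesis `hk` for the point `a_j`), so `0 ≤ psi (K_j)`, and `K_j.j 0 k → K.j 0 k` for `k = 0, 1` by `dat_tendsto` (N3),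
`psi = Phi 0 = j 0 0 - j 0 1` (`j_step`), so `psi (K_j) → psi K`.
-/

set_option autoImplicit false

open MeasureTheory Set Filter Topology

namespace Pool.Agent.Lib.MP_1dedaf_gt.DK

open Pool.Agent.Lib.MP_1dedaf_gt.LB

private theorem PS_convex {w : ℝ} {l : ℝ → ℝ} (vl : ConvexOn ℝ (Icc 0 w) l) (k c : ℝ) :
    ConvexOn ℝ (Icc 0 w) (fun t => l t - (k * t + c)) := by
  refine ⟨convex_Icc _ _, fun x hx y hy a b ha hb hab => ?_⟩
  have h := vl.2 hx hy ha hb hab
  simp only [smul_eq_mul] at h ⊢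
  have e : k * (a * x + b * y) + c = a * (k * x + c) + b * (k * y + c) := by
    linear_combination (-c) * hab
  rw [e]
  linarith [mul_sub a (l x) (k * x + c), mul_sub b (l y) (k * y + c)]

private theorem PS_concave {w : ℝ} {u : ℝ → ℝ} (vu : ConcaveOn ℝ (Icc 0 w) u) (k c : ℝ) :
    ConcaveOn ℝ (Icc 0 w) (fun t => u t - (k * t + c)) := by
  refine ⟨convex_Icc _ _, fun x hx y hy a b ha hb hab => ?_⟩
  have h := vu.2 hx hy ha hb hab
  simp only [smul_eq_mul] at h ⊢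
  have e : k * (a * x + b * y) + c = a * (k * x + c) + b * (k * y + c) := by
    linear_combination (-c) * hab
  rw [e]
  linarith [mul_sub a (u x) (k * x + c), mul_sub b (u y) (k * y + c)]

private theorem PS_Phi0 (K : Dat) : K.Phi 0 = K.psi := by
  unfold Dat.Phi Dat.Xi
  rw [intervalIntegral.integral_same, sub_zero]

private theorem PS_j (hP : CFPos) (K : Dat) (h : K.Reg) (vl : ConvexOn ℝ (Icc 0 K.w) K.l)
    (vu : ConcaveOn ℝ (Icc 0 K.w) K.u) (k0 : ℝ) (hk0 : ∀ x ∈ Icc 0 K.w, K.l 0 + k0 * x ≤ K.l x)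
    (h0 : K.l 0 < K.u 0) (k : ℝ) (hk : k ≤ k0) (hpk : K.p + K.q * k ≠ 0) : 0 ≤ K.j 0 k := by
  have hl0 : K.l 0 - (k * 0 + K.l 0) = 0 := by ring
  have lu : ∀ x ∈ Icc 0 K.w, K.l x - (k * x + K.l 0) ≤ K.u x - (k * x + K.l 0) := by
    intro x hx
    linarith [h.lu x hx]
  have fat : ∃ x ∈ Icc 0 K.w, K.l x - (k * x + K.l 0) < K.u x - (k * x + K.l 0) := by
    obtain ⟨x, hx, h1⟩ := h.fat
    exact ⟨x, hx, by linarith⟩
  have cl : Continuous (fun t => K.l t - (k * t + K.l 0)) :=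
    h.cl.sub ((continuous_const.mul continuous_id).add continuous_const)
  have cu : Continuous (fun t => K.u t - (k * t + K.l 0)) :=
    h.cu.sub ((continuous_const.mul continuous_id).add continuous_const)
  obtain ⟨K', hok, hcol, hcf⟩ := exists_bd (K.p + K.q * k) K.q K.w
    (fun t => K.l t - (k * t + K.l 0)) (fun t => K.u t - (k * t + K.l 0)) hpk h.hq h.hw cl cu
    (PS_convex vl k (K.l 0)) (PS_concave vu k (K.l 0)) lu fat
    (fun x hx => by
      have h1 := hk0 x hx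
      have h2 : k * x ≤ k0 * x := mul_le_mul_of_nonneg_right hk hx.1

      linarith)
    ⟨0, ⟨le_rfl, h.hw.le⟩, hl0⟩
  have hcol' : K'.col = K.shr k (K.l 0) := hcol
  have hu : 0 < K'.u 0 := by
    have h1 : K'.u 0 = K'.col.u 0 := rfl
    rw [h1, hcol']
    show 0 < K.u 0 - (k * 0 + K.l 0)
    linarith
  have hJ := cf_nonneg hP K' (hcf hl0) hu
  rw [hcol'] at hJ
  have hreg : (K.shr k (K.l 0)).Reg := ⟨h.hq, h.hw, cl, cu, lu, fat⟩
  rw [Dat.J_eq _ hreg hl0] at hJ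
  have hM := Dat.M_pos _ hreg
  have h2 : 0 ≤ (K.shr k (K.l 0)).j 0 0 := by
    by_contra hneg
    push Not at hneg
    have := mul_neg_of_pos_of_neg hM hneg
    linarith
  rwa [j_shr K h.hq] at h2

private theorem PS_first (hP : CFPos) (K : Dat) (h : K.Reg) (vl : ConvexOn ℝ (Icc 0 K.w) K.l)
    (vu : ConcaveOn ℝ (Icc 0 K.w) K.u) (k0 : ℝ) (hk0 : ∀ x ∈ Icc 0 K.w, K.l 0 + k0 * x ≤ K.l x)
    (h0 : K.l 0 < K.u 0) : 0 ≤ K.psi := by
  by_contra hneg
  push Not at hneg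
  rw [← PS_Phi0 K] at hneg
  have key : ∀ k : ℝ, k ≤ k0 → K.p + K.q * k ≠ 0 → 0 ≤ K.j 0 0 - k * K.Phi 0 := by
    intro k hk hpk
    have h1 := PS_j hP K h vl vu k0 hk0 h0 k hk hpk
    rw [j_step K h.hq 0 0 k, sub_zero] at h1
    exact h1
  set m : ℝ := min k0 (K.j 0 0 / K.Phi 0) - 1 with hm
  have big : ∀ k : ℝ, k ≤ m → K.j 0 0 - k * K.Phi 0 < 0 := by
    intro k hk
    have h1 : k < K.j 0 0 / K.Phi 0 := by
      have := min_le_right k0 (K.j 0 0 / K.Phi 0)
      linarith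
    have h2 : K.j 0 0 / K.Phi 0 * K.Phi 0 < k * K.Phi 0 := mul_lt_mul_of_neg_right h1 hneg
    rw [div_mul_cancel₀ _ hneg.ne] at h2
    linarith
  have hmk : m ≤ k0 := by
    have := min_le_left k0 (K.j 0 0 / K.Phi 0)
    linarith
  by_cases hpm : K.p + K.q * m = 0
  · have hp2 : K.p + K.q * (m - 1) ≠ 0 := by
      intro h3
      apply h.hq
      linarith
    have h4 := key (m - 1) (by linarith) hp2
    have h5 := big (m - 1) (by linarith)
    linarith
  · have h4 := key m hmk hpm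
    have h5 := big m le_rfl
    linarith

/-- The data cut at `a` and moved. -/
private noncomputable def PS_cut (K : Dat) (a : ℝ) : Dat :=
  ⟨K.p, K.q, K.w - a, fun x => K.l (a + x), fun x => K.u (a + x)⟩

private theorem PS_cutpsi (hP : CFPos) (K : Dat) (h : K.Reg) (vl : ConvexOn ℝ (Icc 0 K.w) K.l)
    (vu : ConcaveOn ℝ (Icc 0 K.w) K.u) (a : ℝ) (ha : 0 ≤ a) (haw : a < K.w) (hau : K.l a < K.u a)
    (hk : ∃ k0 : ℝ, ∀ x ∈ Icc a K.w, K.l a + k0 * (x - a) ≤ K.l x) : 0 ≤ (PS_cut K a).psi := by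
  obtain ⟨k0, hk0⟩ := hk
  have hin : ∀ x ∈ Icc 0 (K.w - a), a + x ∈ Icc 0 K.w := fun x hx =>
    ⟨by linarith [hx.1], by linarith [hx.2]⟩
  have hreg : (PS_cut K a).Reg := by
    refine ⟨h.hq, ?_, h.cl.comp (continuous_const.add continuous_id),
      h.cu.comp (continuous_const.add continuous_id), ?_, ?_⟩
    · show 0 < K.w - a
      linarith
    · intro x hx
      exact h.lu (a + x) (hin x hx)
    · refine ⟨0, ⟨le_rfl, ?_⟩, ?_⟩
      · show 0 ≤ K.w - a
        linarith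
      · show K.l (a + 0) < K.u (a + 0)
        rw [add_zero]
        exact hau
  have e : ∀ s t x y : ℝ, s + t = 1 → a + (s * x + t * y) = s * (a + x) + t * (a + y) := by
    intro s t x y hst
    linear_combination (-a) * hst
  refine PS_first hP (PS_cut K a) hreg ?_ ?_ k0 ?_ ?_
  · refine ⟨convex_Icc _ _, fun x hx y hy s t hs ht hst => ?_⟩
    have h1 := vl.2 (hin x hx) (hin y hy) hs ht hst
    simp only [smul_eq_mul] at h1 ⊢
    show K.l (a + (s * x + t * y)) ≤ s * K.l (a + x) + t * K.l (a + y)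
    rw [e s t x y hst]
    exact h1
  · refine ⟨convex_Icc _ _, fun x hx y hy s t hs ht hst => ?_⟩
    have h1 := vu.2 (hin x hx) (hin y hy) hs ht hst
    simp only [smul_eq_mul] at h1 ⊢
    show s * K.u (a + x) + t * K.u (a + y) ≤ K.u (a + (s * x + t * y))
    rw [e s t x y hst]
    exact h1
  · intro x hx
    have hx' : x ∈ Icc 0 (K.w - a) := hx
    have h1 := hk0 (a + x) ⟨by linarith [hx'.1], by linarith [hx'.2]⟩
    show K.l (a + 0) + k0 * x ≤ K.l (a + x)
    rw [add_zero]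
    rwa [add_sub_cancel_left] at h1
  · show K.l (a + 0) < K.u (a + 0)
    rw [add_zero]
    exact hau

private theorem PS_psi_j (K : Dat) (hq : K.q ≠ 0) : K.psi = K.j 0 0 - K.j 0 1 := by
  rw [j_step K hq 0 0 1, PS_Phi0 K]
  ring

theorem psi_nonneg (hP : CFPos) (K : Dat) (h : K.Reg) (vl : ConvexOn ℝ (Icc 0 K.w) K.l) (vu : ConcaveOn ℝ (Icc 0 K.w) K.u)
    (hk : ∀ a ∈ Ico 0 K.w, ∃ k0 : ℝ, ∀ x ∈ Icc a K.w, K.l a + k0 * (x - a) ≤ K.l x) : 0 ≤ K.psi := by
  rcases (h.lu 0 ⟨le_rfl, h.hw.le⟩).lt_or_eq with h0 | h0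
  · obtain ⟨k0, hk0⟩ := hk 0 ⟨le_rfl, h.hw⟩
    refine PS_first hP K h vl vu k0 (fun x hx => ?_) h0
    have h1 := hk0 x hx
    rwa [sub_zero] at h1
  · obtain ⟨x1, hx1, hfat⟩ := h.fat
    have hx1pos : 0 < x1 := by
      rcases hx1.1.lt_or_eq with h1 | h1
      · exact h1
      · rw [← h1, h0] at hfat
        exact absurd hfat (lt_irrefl _)
    have hlt : ∀ a : ℝ, 0 < a → a ≤ x1 → K.l a < K.u a := by
      intro a ha ha1
      have hs : 0 < a / x1 := div_pos ha hx1pos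
      have hs1 : a / x1 ≤ 1 := (div_le_one hx1pos).2 ha1
      have ht : 0 ≤ 1 - a / x1 := by linarith
      have h2 := vl.2 hx1 (⟨le_rfl, h.hw.le⟩ : (0:ℝ) ∈ Icc 0 K.w) hs.le ht (by ring)
      have h3 := vu.2 hx1 (⟨le_rfl, h.hw.le⟩ : (0:ℝ) ∈ Icc 0 K.w) hs.le ht (by ring)
      simp only [smul_eq_mul, mul_zero, add_zero] at h2 h3
      rw [div_mul_cancel₀ _ hx1pos.ne'] at h2 h3
      rw [h0] at h2
      have h4 := mul_lt_mul_of_pos_left hfat hs
      linarith
    set A : ℕ → ℝ := fun j => x1 / ((j : ℝ) + 2) with hA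
    have hApos : ∀ j, 0 < A j := fun j => div_pos hx1pos (by positivity)
    have hAle : ∀ j, A j < x1 := by
      intro j
      rw [hA]
      show x1 / ((j : ℝ) + 2) < x1
      rw [div_lt_iff₀ (by positivity)]
      nlinarith [Nat.cast_nonneg (α := ℝ) j]
    have hAlim : Tendsto A atTop (𝓝 0) := by
      have h1 : Tendsto (fun j : ℕ => (j : ℝ) + 2) atTop atTop :=
        tendsto_atTop_add_const_right _ _ tendsto_natCast_atTop_atTop
      exact h1.const_div_atTop x1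
    have hpsi : ∀ j, 0 ≤ (PS_cut K (A j)).psi := fun j =>
      PS_cutpsi hP K h vl vu (A j) (hApos j).le ((hAle j).trans_le hx1.2)
        (hlt _ (hApos j) (hAle j).le) (hk (A j) ⟨(hApos j).le, (hAle j).trans_le hx1.2⟩)
    have hlim : ∀ k : ℝ, Tendsto (fun j => (PS_cut K (A j)).j 0 k) atTop (𝓝 (K.j 0 k)) := by
      intro k
      refine dat_tendsto (fun j => PS_cut K (A j)) K h
        (fun j => ⟨h.cl.comp (continuous_const.add continuous_id),
          h.cu.comp (continuous_const.add continuous_id)⟩)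
        tendsto_const_nhds tendsto_const_nhds ?_ ?_ ?_ (fun _ => 0) 0 tendsto_const_nhds k
      · show Tendsto (fun j => K.w - A j) atTop (𝓝 K.w)
        have h1 := (tendsto_const_nhds (x := K.w)).sub hAlim
        rwa [sub_zero] at h1
      · intro xs x φ hφ hxs
        show Tendsto (fun j => K.l (A (φ j) + xs j)) atTop (𝓝 (K.l x))
        have h1 := (hAlim.comp hφ.tendsto_atTop).add hxs
        rw [zero_add] at h1
        exact (h.cl.tendsto x).comp h1
      · intro xs x φ hφ hxs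
        show Tendsto (fun j => K.u (A (φ j) + xs j)) atTop (𝓝 (K.u x))
        have h1 := (hAlim.comp hφ.tendsto_atTop).add hxs
        rw [zero_add] at h1
        exact (h.cu.tendsto x).comp h1
    have h5 : Tendsto (fun j => (PS_cut K (A j)).psi) atTop (𝓝 K.psi) := by
      rw [PS_psi_j K h.hq]
      refine ((hlim 0).sub (hlim 1)).congr fun j => ?_
      exact (PS_psi_j (PS_cut K (A j)) h.hq).symm
    exact ge_of_tendsto' h5 hpsi

end Pool.Agent.Lib.MP_1dedaf_gt.DK
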